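import Pool.Agent.Y843.AC.Stm

/-!
# Project AC: sets with many progressions have many elements, upper bound for progressions
-/

set_option autoImplicit false

open Finset

namespace Pool.Agent.Y363.AC

open Pool.Agent.Y843.AC
open Pool.Agent.Y843.HS

lemma one_le_D {X D B : ℕ} (hX : 3 ≤ X) (h : Real.log X ^ B ≤ D) : (1 : ℝ) ≤ D := by
  have h3 : (3 : ℝ) ≤ X := by exact_mod_cast hX
  have h1 : 1 ≤ Real.log X := by
    rw [Real.le_log_iff_exp_le (by linarith)]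
    linarith [Real.exp_one_lt_d9]
  exact (one_le_pow₀ h1).trans h

open Classical in
/-- the differences of the progressions which begin with `a` -/
noncomputable def Dd (k D : ℕ) (S : Finset ℕ) (a : ℕ) : Finset ℕ :=
  (Icc 1 D).filter (fun d => ∀ j < k, a + j * d ∈ S)

lemma mem_Dd {k D : ℕ} {S : Finset ℕ} {a d : ℕ} :
    d ∈ Dd k D S a ↔ d ∈ Icc 1 D ∧ ∀ j < k, a + j * d ∈ S := by
  simp [Dd]

lemma card_APs (k D : ℕ) (S : Finset ℕ) : (APs k D S).card = ∑ a ∈ S, (Dd k D S a).card := by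
  classical
  rw [APs, card_filter, sum_product]
  refine sum_congr rfl fun a _ => ?_
  rw [Dd, card_filter]

/-- (UPA) -/
theorem upa (h : S_UPG) : S_UPA := by
  classical
  intro r k κ hk hκ
  obtain ⟨C, hC, B, X₀, h1⟩ := h r k κ hκ (fun i => (i : ℕ)) (fun _ => 0) (by
    intro i j hij he
    exact hij (Fin.ext (congrArg Prod.fst he)))
  refine ⟨C, hC, B, max X₀ 3, fun X A D hX hD Z hZ S hS hSA => ?_⟩
  have hD1 := one_le_D ((le_max_right _ _).trans hX) hD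
  have h2 := h1 X A D ((le_max_left _ _).trans hX) hD Z hZ
    ((APs k D S ×ˢ Icc 1 D).image (fun q => (q.1.1, q.1.2, q.2))) (by
      intro t ht
      obtain ⟨q, hq, rfl⟩ := mem_image.1 ht
      rw [mem_product, APs, mem_filter, mem_product] at hq
      refine ⟨hS hq.1.1.1, hq.1.1.2, hq.2, fun i => ?_⟩
      simp only [zero_mul, add_zero]
      exact hSA _ (hq.1.2 i i.2))
  rw [card_image_of_injective _ (by
    intro q q' hqq
    simp only [Prod.mk.injEq] at hqq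
    exact Prod.ext (Prod.ext hqq.1 hqq.2.1) hqq.2.2), card_product, Nat.card_Icc,
    Nat.add_sub_cancel] at h2
  push_cast at h2
  have h3 : (D : ℝ) * ((APs k D S).card : ℝ) ≤
      D * (C * X * D * VV Z 0 ⌊(X : ℝ) ^ κ⌋₊ ^ k) := by
    calc (D : ℝ) * ((APs k D S).card : ℝ) = ((APs k D S).card : ℝ) * D := mul_comm _ _
      _ ≤ C * X * (D : ℝ) ^ 2 * VV Z 0 ⌊(X : ℝ) ^ κ⌋₊ ^ k := h2
      _ = D * (C * X * D * VV Z 0 ⌊(X : ℝ) ^ κ⌋₊ ^ k) := by ring
  exact le_of_mul_le_mul_left h3 (by linarith)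

/-- (CONV) -/
theorem conv (h : S_UPG) : S_CONV := by
  classical
  intro r k κ δ hk hκ hδ
  obtain ⟨C, hC, B, X₀, h1⟩ := h r (2 * k - 1) κ hκ
    (fun i => if (i : ℕ) < k then (i : ℕ) else 0)
    (fun i => if (i : ℕ) < k then 0 else (i : ℕ) - k + 1) (by
      intro i j hij he
      apply hij
      apply Fin.ext
      have e1 := congrArg Prod.fst he
      have e2 := congrArg Prod.snd he
      simp only at e1 e2
      split_ifs at e1 e2 <;> omega)
  refine ⟨δ ^ 2 / C, by positivity, B, max X₀ 3, fun X A D hX hD Z hZ S hS hSA hP => ?_⟩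
  have hX3 : 3 ≤ X := (le_max_right _ _).trans hX
  have hD1 := one_le_D hX3 hD
  have hX3' : (3 : ℝ) ≤ X := by exact_mod_cast hX3
  set V := VV Z 0 ⌊(X : ℝ) ^ κ⌋₊ with hV
  rcases le_or_gt V 0 with hV0 | hV0
  · have h2 : δ ^ 2 / C * X * V ≤ 0 := mul_nonpos_of_nonneg_of_nonpos (by positivity) hV0
    exact h2.trans (Nat.cast_nonneg _)
  have h2 := h1 X A D ((le_max_left _ _).trans hX) hD Z hZ
    ((S ×ˢ (Icc 1 D ×ˢ Icc 1 D)).filter
      (fun t => (∀ j < k, t.1 + j * t.2.1 ∈ S) ∧ ∀ j < k, t.1 + j * t.2.2 ∈ S)) (by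
      intro t ht
      rw [mem_filter, mem_product, mem_product] at ht
      refine ⟨hS ht.1.1, ht.1.2.1, ht.1.2.2, fun i => ?_⟩
      by_cases hi : (i : ℕ) < k
      · simp only [if_pos hi, zero_mul, add_zero]
        exact hSA _ (ht.2.1 i hi)
      · simp only [if_neg hi, zero_mul, add_zero]
        exact hSA _ (ht.2.2 _ (by have := i.2; omega)))
  have h3 : ((S ×ˢ (Icc 1 D ×ˢ Icc 1 D)).filter
      (fun t => (∀ j < k, t.1 + j * t.2.1 ∈ S) ∧ ∀ j < k, t.1 + j * t.2.2 ∈ S)).card =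
      ∑ a ∈ S, (Dd k D S a).card ^ 2 := by
    rw [card_filter, sum_product]
    refine sum_congr rfl fun a _ => ?_
    rw [← card_filter, sq, Dd, ← card_product, ← filter_product]
  rw [h3] at h2
  push_cast at h2
  have h4 : ((APs k D S).card : ℝ) ^ 2 ≤ (S.card : ℝ) * ∑ a ∈ S, ((Dd k D S a).card : ℝ) ^ 2 := by
    rw [card_APs]
    push_cast
    exact sq_sum_le_card_mul_sum_sq
  have h5 : (δ * X * D * V ^ k) ^ 2 ≤ (S.card : ℝ) * (C * X * (D : ℝ) ^ 2 * V ^ (2 * k - 1)) := by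
    calc (δ * X * D * V ^ k) ^ 2 ≤ ((APs k D S).card : ℝ) ^ 2 := by
          gcongr
      _ ≤ (S.card : ℝ) * ∑ a ∈ S, ((Dd k D S a).card : ℝ) ^ 2 := h4
      _ ≤ _ := mul_le_mul_of_nonneg_left h2 (Nat.cast_nonneg _)
  have e1 : V ^ (2 * k - 1) * V = V ^ k * V ^ k := by
    rw [← pow_succ, ← pow_add]
    congr 1
    omega
  have hW : 0 < X * (D : ℝ) ^ 2 * V ^ (2 * k - 1) := by
    have : (0 : ℝ) < X := by linarith
    have : (0 : ℝ) < D := by linarith
    positivity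
  have h6 : δ ^ 2 * X * V * (X * (D : ℝ) ^ 2 * V ^ (2 * k - 1)) ≤
      (S.card : ℝ) * C * (X * (D : ℝ) ^ 2 * V ^ (2 * k - 1)) := by
    calc δ ^ 2 * X * V * (X * (D : ℝ) ^ 2 * V ^ (2 * k - 1)) =
          δ ^ 2 * X ^ 2 * (D : ℝ) ^ 2 * (V ^ (2 * k - 1) * V) := by ring
      _ = (δ * X * D * V ^ k) ^ 2 := by rw [e1]; ring
      _ ≤ (S.card : ℝ) * (C * X * (D : ℝ) ^ 2 * V ^ (2 * k - 1)) := h5
      _ = _ := by ring
  have h7 := le_of_mul_le_mul_right h6 hW
  have e2 : δ ^ 2 / C * X * V = δ ^ 2 * X * V / C := by ring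
  rw [e2, div_le_iff₀ hC]
  exact h7

end Pool.Agent.Y363.AC
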